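import Mathlib

/-!
# Sharp `L^2 → L^{2d}` extension for the moment curve over finite fields

With `a_t = |f(t)|^2` one has `‖(fσ)^∨‖_{2d}^{2d} = q^{-d} P(a)` with
`P(a) = ∑_{|m| = d} (d!/m!)^2 a^m` (Newton's identities, as `p > d`).  Fixing all but two of the
variables, `P` is a combination with nonnegative coefficients of the polynomials
`∑_j C(k,j)^2 a^j b^(k-j) = ∑_j C(k,j) C(k-j,j) (a+b)^(k-2j) (ab)^j`,
so that averaging two different `a_s, a_t` strictly increases `P`.  Hence `P`, restricted to
a simplex, has its unique maximum at the constant vector.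
-/

set_option linter.unusedSectionVars false
set_option linter.unusedVariables false

open Finset

namespace Pool.Agent.Results.MP_110370_an.SharpExtension

universe u

/-! ### Definitions used in the statement -/

/-- The point `(t, t^2, ..., t^d)`. -/
def momentPoint (F : Type u) [Field F] (d : ℕ) (t : F) : Fin d → F := fun i => t ^ ((i : ℕ) + 1)

/-- The moment curve `Γ = {(t, t^2, ..., t^d) : t ∈ F}`. -/
noncomputable def momentCurve (F : Type u) [Field F] [Fintype F] (d : ℕ) : Finset (Fin d → F) := by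
  classical exact Finset.univ.image (momentPoint F d)

/-- The additive character `e(y) = exp(2π i Tr(y)/p)`; `Algebra.trace (ZMod p) F` is the trace
`y + y^p + ... + y^{p^{n-1}}` with values in the prime field. -/
noncomputable def eChar (p : ℕ) [Fact p.Prime] (F : Type u) [Field F] [Algebra (ZMod p) F]
    (y : F) : ℂ :=
  Complex.exp (2 * Real.pi * Complex.I * ((Algebra.trace (ZMod p) F y).val : ℂ) / p)

/-- The extension operator `(fσ)^∨(x) = (1/q) ∑_{ξ ∈ Γ} f(ξ) e(x·ξ)`. -/
noncomputable def extensionOp (p : ℕ) [Fact p.Prime] (F : Type u) [Field F] [Fintype F]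
    [Algebra (ZMod p) F] (d : ℕ) (f : momentCurve F d → ℂ) (x : Fin d → F) : ℂ :=
  (1 / (Fintype.card F : ℂ)) *
    ∑ ξ : momentCurve F d, f ξ * eChar p F (∑ i, x i * (ξ : Fin d → F) i)

/-- The `L^{2d}` norm on `F^d` with counting measure. -/
noncomputable def normExt (F : Type u) [Fintype F] (d : ℕ) (g : (Fin d → F) → ℂ) : ℝ :=
  (∑ x : Fin d → F, ‖g x‖ ^ (2 * d)) ^ (1 / (2 * (d : ℝ)))

/-- The `L^2(σ)` norm on `Γ` with normalised counting measure. -/
noncomputable def normL2 (F : Type u) [Field F] [Fintype F] (d : ℕ)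
    (f : momentCurve F d → ℂ) : ℝ :=
  ((1 / (Fintype.card F : ℝ)) * ∑ ξ, ‖f ξ‖ ^ 2) ^ ((1 : ℝ) / 2)

/-- The set `P_d` of `(ℓ_1, ..., ℓ_d)` with `ℓ_1 ≥ ... ≥ ℓ_d ≥ 0` and `∑ ℓ_i = d`. -/
noncomputable def partitionTuples (d : ℕ) : Finset (Fin d → ℕ) := by
  classical exact (Finset.piAntidiag Finset.univ d).filter (fun ℓ => Antitone ℓ)

/-- `b_j(ℓ)` -/
def bCount (q d : ℕ) (ℓ : Fin d → ℕ) (j : ℕ) : ℕ :=
  if j = 0 then (Finset.univ.filter fun i => ℓ i = 0).card + (q - d)
  else (Finset.univ.filter fun i => ℓ i = j).card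

/-- `d!/(ℓ_1! ⋯ ℓ_d!)` -/
noncomputable def multD (d : ℕ) (ℓ : Fin d → ℕ) : ℝ :=
  (d.factorial : ℝ) / ∏ i, ((ℓ i).factorial : ℝ)

/-- `q!/(b_0! ⋯ b_d!)` -/
noncomputable def multQ (q d : ℕ) (ℓ : Fin d → ℕ) : ℝ :=
  (q.factorial : ℝ) / ∏ j ∈ Finset.range (d + 1), ((bCount q d ℓ j).factorial : ℝ)

/-- `C_{d,q} = (q^{-d} ∑_{ℓ ∈ P_d} (d!/ℓ!)^2 (q!/b(ℓ)!))^{1/(2d)}` -/
noncomputable def sharpConst (d q : ℕ) : ℝ :=
  (((q : ℝ) ^ d)⁻¹ * ∑ ℓ ∈ partitionTuples d, multD d ℓ ^ 2 * multQ q d ℓ) ^ (1 / (2 * (d : ℝ)))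

/-- A maximizer: a nonzero `f` for which the inequality is an equality. -/
def IsMaximizer (p : ℕ) [Fact p.Prime] (F : Type u) [Field F] [Fintype F]
    [Algebra (ZMod p) F] (d : ℕ) (f : momentCurve F d → ℂ) : Prop :=
  f ≠ 0 ∧ normExt F d (extensionOp p F d f) = sharpConst d (Fintype.card F) * normL2 F d f

/-! ### Newton's identities -/


/-- Multisets of size `d` with equal power sums of orders `1..d` coincide. -/
lemma multiset_eq_of_psum {F : Type*} [Field F] {d : ℕ} (hd : ∀ k, 1 ≤ k → k ≤ d → (k : F) ≠ 0)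
    (a b : Fin d → F) (h : ∀ k, 1 ≤ k → k ≤ d → ∑ i, a i ^ k = ∑ i, b i ^ k) :
    (univ.val.map a : Multiset F) = univ.val.map b := by
  have he : ∀ k ≤ d, (univ.val.map a : Multiset F).esymm k = (univ.val.map b : Multiset F).esymm k := by
    intro k
    induction k using Nat.strong_induction_on with
    | _ k ih =>
      intro hk
      rcases Nat.eq_zero_or_pos k with rfl | hk0
      · simp [Multiset.esymm]
      · have key : ∀ c : Fin d → F, (k : F) * (univ.val.map c : Multiset F).esymm k =
            (-1) ^ (k + 1) * ∑ x ∈ antidiagonal k with x.1 < k,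
              (-1) ^ x.1 * (univ.val.map c : Multiset F).esymm x.1 * ∑ i, c i ^ x.2 := by
          intro c
          have := congrArg (MvPolynomial.aeval c) (MvPolynomial.mul_esymm_eq_sum (Fin d) F k)
          simp only [map_mul, map_natCast, map_pow, map_neg, map_one, map_sum,
            MvPolynomial.psum, MvPolynomial.aeval_X,
            MvPolynomial.aeval_esymm_eq_multiset_esymm] at this
          exact this
        have h1 := key a
        have h2 := key b
        have h3 : ∑ x ∈ antidiagonal k with x.1 < k,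
              (-1) ^ x.1 * (univ.val.map a : Multiset F).esymm x.1 * ∑ i, a i ^ x.2 =
            ∑ x ∈ antidiagonal k with x.1 < k,
              (-1) ^ x.1 * (univ.val.map b : Multiset F).esymm x.1 * ∑ i, b i ^ x.2 := by
          apply Finset.sum_congr rfl
          intro x hx
          rw [Finset.mem_filter, HasAntidiagonal.mem_antidiagonal] at hx
          rw [ih x.1 hx.2 (by omega), h x.2 (by omega) (by omega)]
        rw [h3] at h1
        exact mul_left_cancel₀ (hd k hk0 hk) (h1.trans h2.symm)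
  have hprod : ((univ.val.map a : Multiset F).map (fun r => Polynomial.X - Polynomial.C r)).prod =
      ((univ.val.map b : Multiset F).map (fun r => Polynomial.X - Polynomial.C r)).prod := by
    rw [Multiset.prod_X_sub_X_eq_sum_esymm, Multiset.prod_X_sub_X_eq_sum_esymm]
    have hc : ∀ c : Fin d → F, Multiset.card (univ.val.map c : Multiset F) = d := by
      intro c; simp
    rw [hc, hc]
    apply Finset.sum_congr rfl
    intro j hj
    rw [Finset.mem_range] at hj
    rw [he j (by omega)]
  have := congrArg Polynomial.roots hprod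
  rwa [Polynomial.roots_multiset_prod_X_sub_C, Polynomial.roots_multiset_prod_X_sub_C] at this

/-- Multiplicity functions of total mass `d` are determined by the moments of orders `1..d`. -/
lemma mult_eq_of_moments {F : Type*} [Field F] [Fintype F] [DecidableEq F] {d : ℕ}
    (hd : ∀ k, 1 ≤ k → k ≤ d → (k : F) ≠ 0)
    {m m' : F → ℕ} (hm : m ∈ piAntidiag univ d) (hm' : m' ∈ piAntidiag univ d)
    (h : ∀ k, 1 ≤ k → k ≤ d → ∑ t, m t • t ^ k = ∑ t, m' t • t ^ k) : m = m' := by
  -- the multiset attached to a multiplicity function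
  let ms : (F → ℕ) → Multiset F := fun m => ∑ t, m t • ({t} : Multiset F)
  have hcount : ∀ (m : F → ℕ) t, (ms m).count t = m t := by
    intro m t
    simp only [ms, Multiset.count_sum', Multiset.count_nsmul, Multiset.count_singleton]
    simp
  have hcard : ∀ m : F → ℕ, Multiset.card (ms m) = ∑ t, m t := by
    intro m
    simp [ms]
  have hpow : ∀ (m : F → ℕ) k, ((ms m).map (fun t => t ^ k)).sum = ∑ t, m t • t ^ k := by
    intro m k
    let φ : Multiset F →+ F := (Multiset.sumAddMonoidHom (M := F)).comp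
      (Multiset.mapAddMonoidHom (fun t : F => t ^ k))
    have hφ : ∀ s : Multiset F, (s.map (fun t => t ^ k)).sum = φ s := fun s => rfl
    rw [hφ]
    simp only [ms]
    rw [map_sum]
    apply Finset.sum_congr rfl
    intro t _
    rw [map_nsmul]
    simp [φ]
  have hrep : ∀ m ∈ piAntidiag (univ : Finset F) d, ∃ a : Fin d → F, univ.val.map a = ms m := by
    intro m hm
    rw [mem_piAntidiag] at hm
    have hc : (ms m).toList.length = d := by
      rw [Multiset.length_toList, hcard]; exact hm.1
    refine ⟨fun i => (ms m).toList.get (i.cast hc.symm), ?_⟩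
    subst hc
    simp only [Fin.univ_val_map, Fin.cast_eq_self]
    rw [List.ofFn_get, Multiset.coe_toList]
  obtain ⟨a, ha⟩ := hrep m hm
  obtain ⟨b, hb⟩ := hrep m' hm'
  have hsum : ∀ (c : Fin d → F) k, ∑ i, c i ^ k = ((univ.val.map c).map (fun t => t ^ k)).sum := by
    intro c k
    rw [Multiset.map_map]
    rfl
  have hab := multiset_eq_of_psum hd a b (fun k h1 h2 => by
    rw [hsum, hsum, ha, hb, hpow, hpow]; exact h k h1 h2)
  rw [ha, hb] at hab
  funext t
  rw [← hcount m t, hab, hcount m' t]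

/-! ### The additive character -/

section
variable {p : ℕ} [Fact p.Prime] {F : Type u} [Field F] [Fintype F] [Algebra (ZMod p) F]

/-- the additive character as an `AddChar` -/
noncomputable def psi (p : ℕ) [Fact p.Prime] (F : Type u) [Field F] [Algebra (ZMod p) F] :
    AddChar F ℂ :=
  (ZMod.stdAddChar (N := p)).compAddMonoidHom (Algebra.trace (ZMod p) F).toAddMonoidHom

lemma eChar_eq (y : F) : eChar p F y = psi p F y := by
  unfold eChar psi
  rw [AddChar.compAddMonoidHom_apply]
  simp only [LinearMap.toAddMonoidHom_coe]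
  rw [ZMod.stdAddChar_apply, ZMod.toCircle_apply]

lemma psi_primitive : (psi p F).IsPrimitive := by
  apply AddChar.IsPrimitive.of_ne_one
  have htr := (traceForm_nondegenerate (ZMod p) F).1 1
  simp_rw [Algebra.traceForm_apply, one_mul] at htr
  obtain ⟨b, hb⟩ : ∃ b : F, Algebra.trace (ZMod p) F b ≠ 0 := by
    by_contra! hf
    exact one_ne_zero (htr hf)
  rw [AddChar.ne_one_iff]
  refine ⟨b, fun h => hb ?_⟩
  unfold psi at h
  rw [AddChar.compAddMonoidHom_apply, ← (ZMod.stdAddChar (N := p)).map_zero_eq_one] at h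
  exact ZMod.injective_stdAddChar h

lemma psi_orth [DecidableEq F] {d : ℕ} (s : Fin d → F) :
    ∑ x : Fin d → F, psi p F (∑ i, x i * s i) = if s = 0 then (Fintype.card F : ℂ) ^ d else 0 := by
  have h1 : ∀ x : Fin d → F, psi p F (∑ i, x i * s i) = ∏ i, psi p F (x i * s i) := by
    intro x
    have := map_prod (psi p F).toMonoidHom (fun i => Multiplicative.ofAdd (x i * s i)) univ
    rw [← ofAdd_sum] at this
    exact this
  simp_rw [h1]
  have h2 := Finset.prod_univ_sum (fun _ : Fin d => (univ : Finset F))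
    (fun i y => psi p F (y * s i))
  rw [Fintype.piFinset_univ] at h2
  rw [← h2]
  simp_rw [AddChar.sum_mulShift _ (psi_primitive (p := p) (F := F))]
  split_ifs with h
  · subst h; simp
  · have : ∃ i, s i ≠ 0 := by
      by_contra! hc
      exact h (funext hc)
    obtain ⟨i, hi⟩ := this
    apply Finset.prod_eq_zero (mem_univ i)
    simp [hi]

lemma parseval [DecidableEq F] {d : ℕ} {ι : Type*} [DecidableEq ι] (M : Finset ι) (A : ι → ℂ)
    (s : ι → Fin d → F) (hs : Set.InjOn s M) :
    ∑ x : Fin d → F, ‖∑ m ∈ M, A m * psi p F (∑ i, x i * s m i)‖ ^ 2 =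
      (Fintype.card F : ℝ) ^ d * ∑ m ∈ M, ‖A m‖ ^ 2 := by
  have hR : ∀ z : ℂ, ((‖z‖ ^ 2 : ℝ) : ℂ) = z * (starRingEnd ℂ) z := by
    intro z
    rw [Complex.mul_conj, Complex.normSq_eq_norm_sq]
  apply Complex.ofReal_injective
  push_cast
  have hR' : ∀ z : ℂ, (‖z‖ : ℂ) ^ 2 = z * (starRingEnd ℂ) z := by
    intro z
    rw [← hR]; push_cast; rfl
  simp_rw [hR']
  have h1 : ∀ x : Fin d → F,
      (∑ m ∈ M, A m * psi p F (∑ i, x i * s m i)) *
        (starRingEnd ℂ) (∑ m ∈ M, A m * psi p F (∑ i, x i * s m i)) =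
      ∑ m ∈ M, ∑ m' ∈ M, (A m * (starRingEnd ℂ) (A m')) *
        psi p F (∑ i, x i * (s m i - s m' i)) := by
    intro x
    rw [map_sum, Finset.sum_mul_sum]
    apply Finset.sum_congr rfl
    intro m _
    apply Finset.sum_congr rfl
    intro m' _
    have : psi p F (∑ i, x i * (s m i - s m' i)) =
        psi p F (∑ i, x i * s m i) * (starRingEnd ℂ) (psi p F (∑ i, x i * s m' i)) := by
      rw [← AddChar.map_neg_eq_conj, ← AddChar.map_add_eq_mul]
      congr 1
      simp_rw [mul_sub]
      rw [Finset.sum_sub_distrib]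
      ring
    rw [this, map_mul]
    ring
  simp_rw [h1]
  rw [Finset.sum_comm]
  rw [Finset.mul_sum]
  apply Finset.sum_congr rfl
  intro m hm
  rw [Finset.sum_comm]
  have h2 : ∀ m' ∈ M, ∑ x : Fin d → F, A m * (starRingEnd ℂ) (A m') *
      psi p F (∑ i, x i * (s m i - s m' i)) =
      if m' = m then (Fintype.card F : ℂ) ^ d * (A m * (starRingEnd ℂ) (A m)) else 0 := by
    intro m' hm'
    rw [← Finset.mul_sum]
    have h3 := psi_orth (p := p) (F := F) (fun i => s m i - s m' i)
    rw [h3]
    have h4 : ((fun i => s m i - s m' i) = 0) ↔ m' = m := by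
      constructor
      · intro h
        apply hs hm' hm
        funext i
        have := congrFun h i
        simp only [Pi.zero_apply] at this
        exact (sub_eq_zero.1 this).symm
      · rintro rfl
        funext i
        simp
    by_cases h5 : m' = m
    · rw [if_pos (h4.2 h5), if_pos h5, h5]
      ring
    · rw [if_neg (fun h => h5 (h4.1 h)), if_neg h5, mul_zero]
  rw [Finset.sum_congr rfl h2]
  rw [Finset.sum_ite_eq' M m]
  rw [if_pos hm]

end

/-! ### The polynomial `P` -/


/-- two-variable coefficient -/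
noncomputable def hk (k : ℕ) (a b : ℝ) : ℝ := ∑ x ∈ antidiagonal k, (k.choose x.1 : ℝ) ^ 2 * (a ^ x.1 * b ^ x.2)

/-- expansion in the sum and the product of the two variables -/
lemma hk_eq (k : ℕ) (a b : ℝ) :
    hk k a b = ∑ j ∈ range (k + 1), (k.choose j : ℝ) * ((k - j).choose j : ℝ) *
      (a + b) ^ (k - j - j) * (a * b) ^ j := by
  open Polynomial in
  have h1 : ((X + C a) ^ k * (X + C b) ^ k : ℝ[X]) = ((X * (X + C (a + b))) + C (a * b)) ^ k := by
    rw [← mul_pow]
    congr 1
    rw [C_add, C_mul]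
    ring
  have h2 := congrArg (fun p : Polynomial ℝ => Polynomial.coeff p k) h1
  have h3 : Polynomial.coeff ((Polynomial.X + Polynomial.C a) ^ k *
      (Polynomial.X + Polynomial.C b) ^ k : Polynomial ℝ) k = hk k a b := by
    rw [Polynomial.coeff_mul]
    simp only [Polynomial.coeff_X_add_C_pow]
    unfold hk
    refine Finset.sum_equiv (Equiv.prodComm ℕ ℕ) ?_ ?_
    · intro x
      simp [HasAntidiagonal.mem_antidiagonal, add_comm]
    · rintro ⟨x, y⟩ hx
      rw [HasAntidiagonal.mem_antidiagonal] at hx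
      simp only [Equiv.prodComm_apply, Prod.swap_prod_mk] at hx ⊢
      have h4 : k - x = y := by omega
      have h5 : k - y = x := by omega
      have h6 : k.choose x = k.choose y := by
        rw [← Nat.choose_symm (show x ≤ k by omega), h4]
      rw [h4, h5, h6]
      ring
  rw [← h3, h2, add_pow, Polynomial.finsetSum_coeff, ← Finset.sum_range_reflect]
  apply Finset.sum_congr rfl
  intro j hj
  rw [Finset.mem_range] at hj
  have e1 : k + 1 - 1 - j = k - j := by omega
  have e2 : k - (k - j) = j := by omega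
  have e3 : k.choose (k - j) = k.choose j := Nat.choose_symm (by omega)
  rw [e1, e2, e3, mul_pow, ← Polynomial.C_pow]
  rw [show (Polynomial.X ^ (k - j) * (Polynomial.X + Polynomial.C (a + b)) ^ (k - j) *
      Polynomial.C ((a * b) ^ j) * ((k.choose j : ℕ) : Polynomial ℝ)) =
      ((Polynomial.X + Polynomial.C (a + b)) ^ (k - j) *
      Polynomial.C ((a * b) ^ j * (k.choose j : ℝ))) * Polynomial.X ^ (k - j) by
        rw [Polynomial.C_mul, Polynomial.C_eq_natCast]; ring]
  rw [Polynomial.coeff_mul_X_pow', if_pos (by omega), Polynomial.coeff_mul_C,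
    Polynomial.coeff_X_add_C_pow, e2]
  ring

lemma hk_lt {k : ℕ} (hk2 : 2 ≤ k) {a b : ℝ} (ha : 0 ≤ a) (hb : 0 ≤ b) (hab : a ≠ b) :
    hk k a b < hk k ((a + b) / 2) ((a + b) / 2) := by
  have hc : 0 < a + b := by
    rcases ha.lt_or_eq with h | h
    · linarith
    · rcases hb.lt_or_eq with h' | h'
      · linarith
      · exact absurd (h.symm.trans h') hab
  have hπ : a * b < (a + b) / 2 * ((a + b) / 2) := by
    nlinarith [sq_nonneg (a - b), sq_pos_of_ne_zero (sub_ne_zero.2 hab)]
  rw [hk_eq, hk_eq, add_halves]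
  apply Finset.sum_lt_sum
  · intro j _
    gcongr
  · refine ⟨1, by rw [Finset.mem_range]; omega, ?_⟩
    have h1 : 0 < k.choose 1 := Nat.choose_pos (by omega)
    have h2 : 0 < (k - 1).choose 1 := Nat.choose_pos (by omega)
    rw [pow_one, pow_one]
    gcongr

lemma hk_le (k : ℕ) {a b : ℝ} (ha : 0 ≤ a) (hb : 0 ≤ b) :
    hk k a b ≤ hk k ((a + b) / 2) ((a + b) / 2) := by
  have hπ : a * b ≤ (a + b) / 2 * ((a + b) / 2) := by
    nlinarith [sq_nonneg (a - b)]
  rw [hk_eq, hk_eq, add_halves]
  apply Finset.sum_le_sum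
  intro j _
  gcongr

/-- the generating series -/
noncomputable def ser (a : ℝ) : PowerSeries ℝ := PowerSeries.mk fun m => a ^ m / (m.factorial : ℝ) ^ 2

lemma coeff_ser_mul (k : ℕ) (a b : ℝ) :
    PowerSeries.coeff k (ser a * ser b) = hk k a b / (k.factorial : ℝ) ^ 2 := by
  rw [PowerSeries.coeff_mul, hk, Finset.sum_div]
  apply Finset.sum_congr rfl
  rintro ⟨x, y⟩ hx
  rw [HasAntidiagonal.mem_antidiagonal] at hx
  simp only at hx
  simp only [ser, PowerSeries.coeff_mk]
  have h1 : (k.choose x : ℝ) = (k.factorial : ℝ) / (x.factorial * y.factorial) := by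
    rw [Nat.cast_choose ℝ (show x ≤ k by omega), show k - x = y by omega]
  rw [h1]
  have := Nat.factorial_pos k
  field_simp

lemma coeff_prod_ser_nonneg {ι : Type*} (s : Finset ι) {a : ι → ℝ} (ha : ∀ i, 0 ≤ a i) (k : ℕ) :
    0 ≤ PowerSeries.coeff k (∏ i ∈ s, ser (a i)) := by
  classical
  rw [PowerSeries.coeff_prod]
  apply Finset.sum_nonneg
  intro l _
  apply Finset.prod_nonneg
  intro i _
  rw [ser, PowerSeries.coeff_mk]
  have := ha i
  positivity

lemma coeff_zero_prod_ser {ι : Type*} (s : Finset ι) (a : ι → ℝ) :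
    PowerSeries.coeff 0 (∏ i ∈ s, ser (a i)) = 1 := by
  rw [PowerSeries.coeff_zero_eq_constantCoeff_apply, map_prod]
  apply Finset.prod_eq_one
  intro i _
  rw [ser, ← PowerSeries.coeff_zero_eq_constantCoeff_apply, PowerSeries.coeff_mk]
  simp

/-- The polynomial to be maximised. -/
noncomputable def PP (ι : Type*) [Fintype ι] [DecidableEq ι] (d : ℕ) (a : ι → ℝ) : ℝ :=
  ∑ m ∈ piAntidiag (univ : Finset ι) d, (Nat.multinomial univ m : ℝ) ^ 2 * ∏ t, a t ^ m t

section
variable {ι : Type*} [Fintype ι] [DecidableEq ι]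

lemma PP_eq (d : ℕ) (a : ι → ℝ) :
    PP ι d a = (d.factorial : ℝ) ^ 2 * PowerSeries.coeff d (∏ t, ser (a t)) := by
  rw [PowerSeries.coeff_prod, PP, Finset.mul_sum]
  symm
  refine Finset.sum_bij (fun (l : ι →₀ ℕ) _ => (l : ι → ℕ)) ?_ ?_ ?_ ?_
  · intro l hl
    rw [mem_finsuppAntidiag] at hl
    rw [mem_piAntidiag]
    exact ⟨hl.1, fun i _ => mem_univ i⟩
  · intro l _ l' _ h
    exact DFunLike.coe_injective h
  · intro m hm
    rw [mem_piAntidiag] at hm
    refine ⟨Finsupp.equivFunOnFinite.symm m, ?_, ?_⟩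
    · rw [mem_finsuppAntidiag]
      exact ⟨by simpa using hm.1, fun i _ => mem_univ i⟩
    · simp
  · intro l hl
    rw [mem_finsuppAntidiag] at hl
    simp only [ser, PowerSeries.coeff_mk]
    rw [Finset.prod_div_distrib]
    have h1 : (Nat.multinomial univ (l : ι → ℕ) : ℝ) =
        (d.factorial : ℝ) / ∏ i, ((l i).factorial : ℝ) := by
      have h2 := Nat.multinomial_spec (univ : Finset ι) (l : ι → ℕ)
      rw [hl.1] at h2
      have h3 : (∏ i, ((l i).factorial : ℝ)) * (Nat.multinomial univ (l : ι → ℕ) : ℝ) =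
          (d.factorial : ℝ) := by exact_mod_cast h2
      have h4 : (∏ i, ((l i).factorial : ℝ)) ≠ 0 :=
        Finset.prod_ne_zero_iff.2 fun i _ => by positivity
      field_simp
      linarith
    rw [h1, Finset.prod_pow]
    ring

/-- smoothing two coordinates -/
lemma PP_smooth {d : ℕ} (hd : 2 ≤ d) {a : ι → ℝ} (ha : ∀ i, 0 ≤ a i) {s t : ι} (hst : a s ≠ a t) :
    PP ι d a < PP ι d (Function.update (Function.update a s ((a s + a t) / 2)) t ((a s + a t) / 2)) := by
  have hne : s ≠ t := fun h => hst (by rw [h])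
  set a' := Function.update (Function.update a s ((a s + a t) / 2)) t ((a s + a t) / 2) with ha'
  have has : a' s = (a s + a t) / 2 := by
    rw [ha', Function.update_of_ne hne, Function.update_self]
  have hat : a' t = (a s + a t) / 2 := by
    rw [ha', Function.update_self]
  have hother : ∀ i, i ≠ s → i ≠ t → a' i = a i := by
    intro i h1 h2
    rw [ha', Function.update_of_ne h2, Function.update_of_ne h1]
  have hsplit : ∀ b : ι → ℝ, ∏ i, ser (b i) =
      (ser (b s) * ser (b t)) * ∏ i ∈ (univ.erase s).erase t, ser (b i) := by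
    intro b
    rw [← Finset.mul_prod_erase univ _ (mem_univ s),
      ← Finset.mul_prod_erase (univ.erase s) _ (Finset.mem_erase.2 ⟨hne.symm, mem_univ t⟩), mul_assoc]
  have hrest : ∏ i ∈ (univ.erase s).erase t, ser (a' i) = ∏ i ∈ (univ.erase s).erase t, ser (a i) := by
    apply Finset.prod_congr rfl
    intro i hi
    rw [Finset.mem_erase, Finset.mem_erase] at hi
    rw [hother i hi.2.1 hi.1]
  rw [PP_eq, PP_eq, hsplit a, hsplit a', hrest, has, hat]
  have hfac : (0 : ℝ) < (d.factorial : ℝ) ^ 2 := by positivity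
  apply mul_lt_mul_of_pos_left _ hfac
  rw [PowerSeries.coeff_mul, PowerSeries.coeff_mul]
  apply Finset.sum_lt_sum
  · rintro ⟨x, y⟩ _
    simp only
    rw [coeff_ser_mul, coeff_ser_mul]
    have h1 := hk_le x (ha s) (ha t)
    have h2 := coeff_prod_ser_nonneg ((univ.erase s).erase t) ha y
    gcongr
  · refine ⟨(d, 0), by simp, ?_⟩
    simp only
    rw [coeff_zero_prod_ser, mul_one, mul_one, coeff_ser_mul, coeff_ser_mul]
    have h1 := hk_lt hd (ha s) (ha t) hst
    gcongr

lemma PP_continuous (d : ℕ) : Continuous (PP ι d) := by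
  unfold PP
  fun_prop

lemma PP_max [Nonempty ι] {d : ℕ} (hd : 2 ≤ d) {a : ι → ℝ} (ha : ∀ i, 0 ≤ a i) :
    PP ι d a ≤ PP ι d (fun _ => (∑ i, a i) / Fintype.card ι) ∧
    (PP ι d a = PP ι d (fun _ => (∑ i, a i) / Fintype.card ι) → ∀ s t, a s = a t) := by
  set A := ∑ i, a i with hA
  let K : Set (ι → ℝ) := {b | (∀ i, 0 ≤ b i) ∧ ∑ i, b i = A}
  have hKc : IsCompact K := by
    have hsub : K ⊆ Set.pi Set.univ (fun _ : ι => Set.Icc (0 : ℝ) A) := by
      rintro b ⟨hb1, hb2⟩ i _
      refine ⟨hb1 i, ?_⟩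
      rw [← hb2]
      exact Finset.single_le_sum (fun j _ => hb1 j) (mem_univ i)
    refine IsCompact.of_isClosed_subset (isCompact_univ_pi fun _ => isCompact_Icc) ?_ hsub
    apply IsClosed.inter
    · have : {b : ι → ℝ | ∀ i, 0 ≤ b i} = ⋂ i, {b | 0 ≤ b i} := by ext; simp
      rw [show (fun b : ι → ℝ => ∀ i, 0 ≤ b i) = (fun b => b ∈ ⋂ i, {b : ι → ℝ | 0 ≤ b i}) by
        ext b; simp]
      exact isClosed_iInter fun i => isClosed_le continuous_const (continuous_apply i)
    · exact isClosed_eq (by fun_prop) continuous_const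
  have haK : a ∈ K := ⟨ha, rfl⟩
  obtain ⟨b, hbK, hb⟩ := hKc.exists_isMaxOn ⟨a, haK⟩ (PP_continuous d).continuousOn
  -- maximisers are constant
  have key : ∀ c ∈ K, (∀ x ∈ K, PP ι d x ≤ PP ι d c) → ∀ s t, c s = c t := by
    intro c hc hmax s t
    by_contra hst
    have hlt := PP_smooth hd hc.1 hst
    set c' := Function.update (Function.update c s ((c s + c t) / 2)) t ((c s + c t) / 2) with hc'
    have hne : s ≠ t := fun h => hst (by rw [h])
    have hc'K : c' ∈ K := by
      refine ⟨fun i => ?_, ?_⟩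
      · have h1 := hc.1 s
        have h2 := hc.1 t
        by_cases hi : i = t
        · subst hi; rw [hc', Function.update_self]; positivity
        · rw [hc', Function.update_of_ne hi]
          by_cases hi' : i = s
          · subst hi'; rw [Function.update_self]; positivity
          · rw [Function.update_of_ne hi']; exact hc.1 i
      · rw [← hc.2]
        have hsplit : ∀ x : ι → ℝ, ∑ i, x i = (x s + x t) + ∑ i ∈ (univ.erase s).erase t, x i := by
          intro x
          rw [← Finset.add_sum_erase univ _ (mem_univ s),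
            ← Finset.add_sum_erase (univ.erase s) _ (Finset.mem_erase.2 ⟨hne.symm, mem_univ t⟩),
            add_assoc]
        rw [hsplit c, hsplit c']
        have has : c' s = (c s + c t) / 2 := by
          rw [hc', Function.update_of_ne hne, Function.update_self]
        have hat : c' t = (c s + c t) / 2 := by
          rw [hc', Function.update_self]
        rw [has, hat]
        have hrest : ∑ i ∈ (univ.erase s).erase t, c' i = ∑ i ∈ (univ.erase s).erase t, c i := by
          apply Finset.sum_congr rfl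
          intro i hi
          rw [Finset.mem_erase, Finset.mem_erase] at hi
          rw [hc', Function.update_of_ne hi.1, Function.update_of_ne hi.2.1]
        rw [hrest]; ring
    exact absurd (hmax c' hc'K) (not_le.2 hlt)
  have hconst : ∀ c ∈ K, (∀ s t, c s = c t) → c = fun _ => A / Fintype.card ι := by
    intro c hc h
    funext s
    have h1 : ∑ i, c i = Fintype.card ι * c s := by
      rw [Finset.sum_congr rfl (fun i _ => h i s)]
      simp
    rw [hc.2] at h1
    rw [h1]
    field_simp
  have hb' := key b hbK (fun x hx => hb hx)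
  have hbe := hconst b hbK hb'
  refine ⟨?_, ?_⟩
  · rw [← hbe]; exact hb haK
  · intro h
    apply key a haK
    intro x hx
    rw [h, ← hbe]
    exact hb hx

lemma PP_const (d : ℕ) (c : ℝ) : PP ι d (fun _ => c) = c ^ d * PP ι d (fun _ => 1) := by
  unfold PP
  rw [Finset.mul_sum]
  apply Finset.sum_congr rfl
  intro m hm
  rw [mem_piAntidiag] at hm
  rw [Finset.prod_pow_eq_pow_sum, hm.1]
  simp
  ring

end

/-! ### The constant -/

lemma mem_partitionTuples {d : ℕ} {ℓ : Fin d → ℕ} :
    ℓ ∈ partitionTuples d ↔ ∑ i, ℓ i = d ∧ Antitone ℓ := by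
  classical
  unfold partitionTuples
  simp [Finset.mem_filter, mem_piAntidiag]

section count
variable {ι : Type*} [Fintype ι] [DecidableEq ι]

/-- multinomial theorem, coefficient extraction -/
lemma sum_prod_eq (d : ℕ) (y : ℕ → ℝ) :
    ∑ m ∈ piAntidiag (univ : Finset ι) d, ∏ t, y (m t) =
      ∑ k ∈ (piAntidiag (range (d + 1)) (Fintype.card ι)).filter
        (fun k => ∑ j ∈ range (d + 1), j * k j = d),
        (Nat.multinomial (range (d + 1)) k : ℝ) * ∏ j ∈ range (d + 1), y j ^ k j := by
  have hL : ((∑ j ∈ range (d + 1), Polynomial.monomial j (y j)) ^ (Fintype.card ι) :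
      Polynomial ℝ).coeff d = ∑ m ∈ piAntidiag (univ : Finset ι) d, ∏ t, y (m t) := by
    have h1 : ((∑ j ∈ range (d + 1), Polynomial.monomial j (y j)) ^ (Fintype.card ι) :
        Polynomial ℝ) = ∏ _t : ι, ∑ j ∈ range (d + 1), Polynomial.monomial j (y j) := by
      simp
    rw [h1, Finset.prod_univ_sum, Polynomial.finsetSum_coeff]
    have h2 : ∀ m : ι → ℕ, (∏ t, (Polynomial.monomial (m t) (y (m t)) : Polynomial ℝ)) =
        Polynomial.monomial (∑ t, m t) (∏ t, y (m t)) := by
      intro m
      have : ∀ s : Finset ι, (∏ t ∈ s, (Polynomial.monomial (m t) (y (m t)) : Polynomial ℝ)) =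
        Polynomial.monomial (∑ t ∈ s, m t) (∏ t ∈ s, y (m t)) := by
        intro s
        induction s using Finset.induction_on with
        | empty => simp
        | insert a s ha ih =>
          rw [Finset.prod_insert ha, Finset.sum_insert ha, Finset.prod_insert ha, ih,
            Polynomial.monomial_mul_monomial]
      exact this univ
    simp_rw [h2, Polynomial.coeff_monomial]
    rw [← Finset.sum_filter]
    apply Finset.sum_congr _ (fun _ _ => rfl)
    ext m
    simp only [Finset.mem_filter, Fintype.mem_piFinset, Finset.mem_range, mem_piAntidiag,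
      mem_univ, implies_true, and_true]
    constructor
    · exact fun h => h.2
    · intro h
      refine ⟨fun t => ?_, h⟩
      have : m t ≤ ∑ t, m t := Finset.single_le_sum (fun _ _ => Nat.zero_le _) (mem_univ t)
      rw [h] at this
      omega
  have hR : ((∑ j ∈ range (d + 1), Polynomial.monomial j (y j)) ^ (Fintype.card ι) :
      Polynomial ℝ).coeff d = ∑ k ∈ (piAntidiag (range (d + 1)) (Fintype.card ι)).filter
        (fun k => ∑ j ∈ range (d + 1), j * k j = d),
        (Nat.multinomial (range (d + 1)) k : ℝ) * ∏ j ∈ range (d + 1), y j ^ k j := by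
    rw [Finset.sum_pow_eq_sum_piAntidiag, Polynomial.finsetSum_coeff, Finset.sum_filter]
    apply Finset.sum_congr rfl
    intro k _
    have h2 : (∏ j ∈ range (d + 1), (Polynomial.monomial j (y j) : Polynomial ℝ) ^ k j) =
        Polynomial.monomial (∑ j ∈ range (d + 1), j * k j) (∏ j ∈ range (d + 1), y j ^ k j) := by
      have : ∀ s : Finset ℕ, (∏ j ∈ s, (Polynomial.monomial j (y j) : Polynomial ℝ) ^ k j) =
        Polynomial.monomial (∑ j ∈ s, j * k j) (∏ j ∈ s, y j ^ k j) := by
        intro s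
        induction s using Finset.induction_on with
        | empty => simp
        | insert a s ha ih =>
          rw [Finset.prod_insert ha, Finset.sum_insert ha, Finset.prod_insert ha, ih,
            Polynomial.monomial_pow, Polynomial.monomial_mul_monomial]
      exact this _
    rw [h2, ← Polynomial.C_eq_natCast, Polynomial.coeff_C_mul, Polynomial.coeff_monomial]
    split_ifs <;> simp
  rw [← hL, hR]

end count

/-- fibre counts of a tuple -/
lemma sum_fiber {d : ℕ} (ℓ : Fin d → ℕ) (hℓ : ∀ i, ℓ i ≤ d) {M : Type*} [AddCommMonoid M]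
    (g : ℕ → M) : ∑ i, g (ℓ i) =
      ∑ j ∈ range (d + 1), (Finset.univ.filter fun i => ℓ i = j).card • g j := by
  rw [← Finset.sum_fiberwise_of_maps_to (s := univ) (t := range (d + 1)) (g := ℓ)]
  · apply Finset.sum_congr rfl
    intro j _
    rw [Finset.sum_congr rfl (g := fun _ => g j)]
    · simp
    · intro i hi
      rw [Finset.mem_filter] at hi
      rw [hi.2]
  · intro i _
    rw [Finset.mem_range]
    have := hℓ i
    omega

lemma le_of_mem_partitionTuples {d : ℕ} {ℓ : Fin d → ℕ} (h : ℓ ∈ partitionTuples d) (i : Fin d) :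
    ℓ i ≤ d := by
  rw [mem_partitionTuples] at h
  rw [← h.1]
  exact Finset.single_le_sum (f := ℓ) (fun _ _ => Nat.zero_le _) (mem_univ i)

lemma bCount_mem {q d : ℕ} (hq : d ≤ q) {ℓ : Fin d → ℕ} (h : ℓ ∈ partitionTuples d) :
    bCount q d ℓ ∈ (piAntidiag (range (d + 1)) q).filter
      (fun k => ∑ j ∈ range (d + 1), j * k j = d) := by
  have hle := le_of_mem_partitionTuples h
  rw [Finset.mem_filter, mem_piAntidiag]
  refine ⟨⟨?_, ?_⟩, ?_⟩
  · have h1 := sum_fiber ℓ hle (fun _ => 1)
    simp only [Finset.sum_const, Finset.card_univ, Fintype.card_fin, smul_eq_mul, mul_one] at h1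
    rw [Finset.sum_range_succ'] at h1 ⊢
    simp only [bCount, if_true, Nat.succ_ne_zero, if_false]
    omega
  · intro j hj
    rw [Finset.mem_range]
    by_contra hcon
    apply hj
    have h0 : j ≠ 0 := by omega
    unfold bCount
    rw [if_neg h0, Finset.card_eq_zero, Finset.filter_eq_empty_iff]
    intro i _
    have := hle i
    omega
  · have h1 := sum_fiber ℓ hle (fun j => j)
    rw [(mem_partitionTuples.1 h).1] at h1
    conv_rhs => rw [h1]
    apply Finset.sum_congr rfl
    intro j _
    unfold bCount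
    split_ifs with h0
    · subst h0; simp
    · simp [mul_comm]

lemma count_map_univ {d : ℕ} (ℓ : Fin d → ℕ) (j : ℕ) :
    (univ.val.map ℓ : Multiset ℕ).count j = (Finset.univ.filter fun i => ℓ i = j).card := by
  rw [Multiset.count_map]
  rw [Finset.card_def, Finset.filter_val]
  congr 2
  ext i
  exact eq_comm

lemma bCount_inj {q d : ℕ} {ℓ ℓ' : Fin d → ℕ} (h : ℓ ∈ partitionTuples d)
    (h' : ℓ' ∈ partitionTuples d) (hb : bCount q d ℓ = bCount q d ℓ') : ℓ = ℓ' := by
  have hm : (univ.val.map ℓ : Multiset ℕ) = univ.val.map ℓ' := by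
    ext j
    rw [count_map_univ, count_map_univ]
    have := congrFun hb j
    unfold bCount at this
    split_ifs at this with h0
    · subst h0; omega
    · exact this
  rw [Fin.univ_val_map, Fin.univ_val_map] at hm
  have hperm : (List.ofFn ℓ).Perm (List.ofFn ℓ') := Multiset.coe_eq_coe.1 hm
  have hs : ∀ {f : Fin d → ℕ}, Antitone f → (List.ofFn f).Pairwise (· ≥ ·) := by
    intro f hf
    rw [List.pairwise_ofFn]
    intro i j hij
    exact hf hij.le
  have := hperm.eq_of_pairwise' (r := (· ≥ ·)) (hs (mem_partitionTuples.1 h).2)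
    (hs (mem_partitionTuples.1 h').2)
  exact List.ofFn_injective this

lemma bCount_surj {q d : ℕ} (hq : d ≤ q) {k : ℕ → ℕ} (hk : k ∈ (piAntidiag (range (d + 1)) q).filter
      (fun k => ∑ j ∈ range (d + 1), j * k j = d)) : ∃ ℓ ∈ partitionTuples d, bCount q d ℓ = k := by
  rw [Finset.mem_filter, mem_piAntidiag] at hk
  obtain ⟨⟨hk1, hk2⟩, hk3⟩ := hk
  rw [Finset.sum_range_succ'] at hk1 hk3
  simp only [zero_mul, add_zero] at hk3
  set c := ∑ j ∈ range d, k (j + 1) with hc
  have hcd : c ≤ d := by
    rw [← hk3, hc]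
    apply Finset.sum_le_sum
    intro j _
    nlinarith
  let B : Multiset ℕ := (∑ j ∈ range d, k (j + 1) • ({j + 1} : Multiset ℕ)) +
    Multiset.replicate (d - c) 0
  have hBcard : Multiset.card B = d := by
    simp only [B, Multiset.card_add, Multiset.card_replicate, Multiset.card_sum,
      Multiset.card_nsmul, Multiset.card_singleton, mul_one]
    omega
  have hBcount : ∀ j, B.count j = if j = 0 then d - c else k j := by
    intro j
    simp only [B, Multiset.count_add, Multiset.count_sum', Multiset.count_nsmul,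
      Multiset.count_singleton, Multiset.count_replicate]
    rcases Nat.eq_zero_or_pos j with rfl | hj
    · simp
    · rw [if_neg (by omega), if_neg (by omega), add_zero]
      by_cases hjd : j < d + 1
      · rw [Finset.sum_eq_single (j - 1)]
        · rw [if_pos (by omega), mul_one, Nat.sub_add_cancel hj]
        · intro i _ hi
          rw [if_neg (by omega), mul_zero]
        · intro h
          rw [Finset.mem_range] at h
          omega
      · have : k j = 0 := by
          by_contra h0
          have := hk2 j h0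
          rw [Finset.mem_range] at this
          omega
        rw [this]
        apply Finset.sum_eq_zero
        intro i hi
        rw [Finset.mem_range] at hi
        rw [if_neg (by omega), mul_zero]
  have hBsum : B.sum = d := by
    simp only [B, Multiset.sum_add, Multiset.sum_replicate, smul_zero, add_zero]
    rw [Multiset.sum_sum]
    simp only [Multiset.sum_nsmul, Multiset.sum_singleton, smul_eq_mul]
    conv_rhs => rw [← hk3]
    apply Finset.sum_congr rfl
    intro j _
    ring
  set Lst := B.sort (· ≥ ·) with hL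
  have hlen : Lst.length = d := by rw [hL, Multiset.length_sort, hBcard]
  let ℓ : Fin d → ℕ := fun i => Lst.get (i.cast hlen.symm)
  have hofFn : List.ofFn ℓ = Lst := by
    apply List.ext_get
    · simp [hlen]
    · intro n h1 h2
      simp [ℓ]
  have hmap : (univ.val.map ℓ : Multiset ℕ) = B := by
    rw [Fin.univ_val_map, hofFn, hL, Multiset.sort_eq]
  refine ⟨ℓ, ?_, ?_⟩
  · rw [mem_partitionTuples]
    refine ⟨?_, ?_⟩
    · have : ∑ i, ℓ i = (univ.val.map ℓ : Multiset ℕ).sum := rfl
      rw [this, hmap, hBsum]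
    · have hs : Lst.Pairwise (· ≥ ·) := Multiset.pairwise_sort _ _
      rw [← hofFn, List.pairwise_ofFn] at hs
      intro i j hij
      rcases hij.lt_or_eq with h | h
      · exact hs h
      · rw [h]
  · funext j
    unfold bCount
    rw [← count_map_univ, ← count_map_univ, hmap, hBcount, hBcount]
    by_cases h0 : j = 0
    · subst h0
      simp only [if_true]
      omega
    · simp only [h0, if_false]

lemma const_eq {ι : Type*} [Fintype ι] [DecidableEq ι] {d : ℕ} (hq : d ≤ Fintype.card ι) :
    ∑ m ∈ piAntidiag (univ : Finset ι) d, (Nat.multinomial univ m : ℝ) ^ 2 =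
      ∑ ℓ ∈ partitionTuples d, multD d ℓ ^ 2 * multQ (Fintype.card ι) d ℓ := by
  set q := Fintype.card ι with hqdef
  have h1 : ∀ m ∈ piAntidiag (univ : Finset ι) d, (Nat.multinomial univ m : ℝ) ^ 2 =
      (d.factorial : ℝ) ^ 2 * ∏ t, (1 / ((m t).factorial : ℝ) ^ 2) := by
    intro m hm
    rw [mem_piAntidiag] at hm
    have h2 := Nat.multinomial_spec (univ : Finset ι) m
    rw [hm.1] at h2
    have h3 : (∏ i, ((m i).factorial : ℝ)) * (Nat.multinomial univ m : ℝ) =
        (d.factorial : ℝ) := by exact_mod_cast h2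
    have h4 : (∏ i, ((m i).factorial : ℝ)) ≠ 0 :=
      Finset.prod_ne_zero_iff.2 fun i _ => by positivity
    rw [Finset.prod_div_distrib, Finset.prod_const_one, Finset.prod_pow, ← h3]
    field_simp
  rw [Finset.sum_congr rfl h1, ← Finset.mul_sum,
    sum_prod_eq d (fun j => 1 / ((j.factorial : ℝ)) ^ 2), Finset.mul_sum]
  symm
  refine Finset.sum_bij (fun ℓ _ => bCount q d ℓ) ?_ ?_ ?_ ?_
  · intro ℓ hℓ
    exact bCount_mem hq hℓ
  · intro ℓ hℓ ℓ' hℓ' h
    exact bCount_inj hℓ hℓ' h
  · intro k hk
    obtain ⟨ℓ, h1, h2⟩ := bCount_surj hq hk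
    exact ⟨ℓ, h1, h2⟩
  · intro ℓ hℓ
    have hmem := bCount_mem hq hℓ
    rw [Finset.mem_filter, mem_piAntidiag] at hmem
    have h2 := Nat.multinomial_spec (range (d + 1)) (bCount q d ℓ)
    rw [hmem.1.1] at h2
    have h3 : (∏ i ∈ range (d + 1), ((bCount q d ℓ i).factorial : ℝ)) *
        (Nat.multinomial (range (d + 1)) (bCount q d ℓ) : ℝ) = (q.factorial : ℝ) := by
      exact_mod_cast h2
    have h4 : (∏ i ∈ range (d + 1), ((bCount q d ℓ i).factorial : ℝ)) ≠ 0 :=
      Finset.prod_ne_zero_iff.2 fun i _ => by positivity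
    have h5 : multQ q d ℓ = (Nat.multinomial (range (d + 1)) (bCount q d ℓ) : ℝ) := by
      unfold multQ
      rw [← h3]
      field_simp
    have h6 : multD d ℓ ^ 2 = (d.factorial : ℝ) ^ 2 *
        ∏ j ∈ range (d + 1), (1 / ((j.factorial : ℝ)) ^ 2) ^ (bCount q d ℓ j) := by
      unfold multD
      rw [div_pow, ← Finset.prod_pow, div_eq_mul_inv, ← Finset.prod_inv_distrib]
      congr 1
      have h7 : ∏ i, (((ℓ i).factorial : ℝ) ^ 2)⁻¹ = ∏ j ∈ range (d + 1),
          ((((j.factorial : ℝ)) ^ 2)⁻¹) ^ (Finset.univ.filter fun i => ℓ i = j).card := by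
        rw [← Finset.prod_fiberwise_of_maps_to (s := univ) (t := range (d + 1)) (g := ℓ)]
        · apply Finset.prod_congr rfl
          intro j _
          rw [Finset.prod_congr rfl (g := fun _ => (((j.factorial : ℝ)) ^ 2)⁻¹)]
          · simp
          · intro i hi
            rw [Finset.mem_filter] at hi
            rw [hi.2]
        · intro i _
          rw [Finset.mem_range]
          have := le_of_mem_partitionTuples hℓ i
          omega
      rw [h7]
      apply Finset.prod_congr rfl
      intro j _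
      unfold bCount
      split_ifs with h0
      · subst h0; simp
      · simp
    rw [h5, h6]
    ring

/-! ### The main theorem -/

section main
variable {p : ℕ} [Fact p.Prime] {F : Type u} [Field F] [Fintype F] [Algebra (ZMod p) F]

/-- The trace used in `eChar` is the one of the problem. -/
lemma trace_formula (y : F) : algebraMap (ZMod p) F (Algebra.trace (ZMod p) F y) =
    ∑ i ∈ Finset.range (Module.finrank (ZMod p) F), y ^ (p ^ i) := by
  rw [FiniteField.algebraMap_trace_eq_sum_pow]
  simp

lemma momentPoint_injective {d : ℕ} (hd : 1 ≤ d) : Function.Injective (momentPoint F d) := by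
  intro s t h
  have := congrFun h ⟨0, hd⟩
  simpa [momentPoint] using this

/-- `f` as a function of the parameter -/
noncomputable def par {d : ℕ} (f : momentCurve F d → ℂ) (t : F) : ℂ := by
  classical exact f ⟨momentPoint F d t, Finset.mem_image.2 ⟨t, mem_univ t, rfl⟩⟩

lemma sum_curve {d : ℕ} (hd : 1 ≤ d) {M : Type*} [AddCommMonoid M] (f : momentCurve F d → ℂ)
    (h : ℂ → (Fin d → F) → M) :
    ∑ ξ : momentCurve F d, h (f ξ) (ξ : Fin d → F) = ∑ t, h (par f t) (momentPoint F d t) := by
  classical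
  symm
  refine Fintype.sum_bijective (fun t => (⟨momentPoint F d t,
    Finset.mem_image.2 ⟨t, mem_univ t, rfl⟩⟩ : momentCurve F d)) ?_ _ _ ?_
  · constructor
    · intro s t hst
      exact momentPoint_injective hd (congrArg Subtype.val hst)
    · rintro ⟨ξ, hξ⟩
      obtain ⟨t, -, rfl⟩ := Finset.mem_image.1 hξ
      exact ⟨t, rfl⟩
  · intro t
    rfl

lemma natCast_ne_zero {d : ℕ} (hdp : d < p) : ∀ k : ℕ, 1 ≤ k → k ≤ d → (k : F) ≠ 0 := by
  intro k h1 h2 h3
  have : CharP F p := charP_of_injective_algebraMap (algebraMap (ZMod p) F).injective p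
  rw [CharP.cast_eq_zero_iff F p] at h3
  have := Nat.le_of_dvd (by omega) h3
  omega

lemma sum_pow_ext {d : ℕ} (hd : 1 ≤ d) (hdp : d < p) [DecidableEq F] (f : momentCurve F d → ℂ) :
    ∑ x : Fin d → F, ‖extensionOp p F d f x‖ ^ (2 * d) =
      ((Fintype.card F : ℝ) ^ d)⁻¹ * PP F d (fun t => ‖par f t‖ ^ 2) := by
  set q : ℝ := (Fintype.card F : ℝ) with hq
  have hqpos : 0 < q := by rw [hq]; exact_mod_cast Fintype.card_pos
  let s : (F → ℕ) → Fin d → F := fun m i => ∑ t, m t • t ^ ((i : ℕ) + 1)
  let A : (F → ℕ) → ℂ := fun m => (Nat.multinomial univ m : ℂ) * ∏ t, par f t ^ m t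
  have h1 : ∀ x : Fin d → F, (∑ t, par f t * psi p F (∑ i, x i * momentPoint F d t i)) ^ d =
      ∑ m ∈ piAntidiag (univ : Finset F) d, A m * psi p F (∑ i, x i * s m i) := by
    intro x
    rw [Finset.sum_pow_eq_sum_piAntidiag]
    apply Finset.sum_congr rfl
    intro m _
    simp only [A]
    rw [mul_assoc]
    congr 1
    simp_rw [mul_pow]
    rw [Finset.prod_mul_distrib]
    congr 1
    have h2 : ∀ t, psi p F (∑ i, x i * momentPoint F d t i) ^ m t =
        psi p F (m t • ∑ i, x i * momentPoint F d t i) := by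
      intro t
      rw [AddChar.map_nsmul_eq_pow]
    simp_rw [h2]
    have h3 := map_prod (psi p F).toMonoidHom
      (fun t => Multiplicative.ofAdd (m t • ∑ i, x i * momentPoint F d t i)) univ
    rw [← ofAdd_sum] at h3
    have h4 : ∑ t, m t • ∑ i, x i * momentPoint F d t i = ∑ i, x i * s m i := by
      simp only [s, momentPoint, Finset.smul_sum, Finset.mul_sum]
      rw [Finset.sum_comm]
      apply Finset.sum_congr rfl
      intro i _
      apply Finset.sum_congr rfl
      intro t _
      rw [mul_smul_comm]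
    rw [h4] at h3
    exact h3.symm
  have h2 : ∀ x : Fin d → F, ‖extensionOp p F d f x‖ ^ (2 * d) =
      ((q ^ d)⁻¹ * (q ^ d)⁻¹) *
        ‖∑ m ∈ piAntidiag (univ : Finset F) d, A m * psi p F (∑ i, x i * s m i)‖ ^ 2 := by
    intro x
    unfold extensionOp
    rw [sum_curve hd f (fun z ξ => z * eChar p F (∑ i, x i * ξ i))]
    simp_rw [eChar_eq]
    rw [← h1 x, norm_mul, norm_pow, mul_pow, ← pow_mul, mul_comm d 2]
    congr 1
    rw [norm_div, norm_one, Complex.norm_natCast, ← hq, one_div, inv_pow, mul_comm 2 d, pow_mul,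
      sq, mul_inv]
  simp_rw [h2]
  rw [← Finset.mul_sum, parseval (piAntidiag (univ : Finset F) d) A s]
  · rw [← hq]
    have h3 : ∑ m ∈ piAntidiag (univ : Finset F) d, ‖A m‖ ^ 2 =
        PP F d (fun t => ‖par f t‖ ^ 2) := by
      unfold PP
      apply Finset.sum_congr rfl
      intro m _
      simp only [A]
      rw [norm_mul, mul_pow, Complex.norm_natCast, norm_prod, ← Finset.prod_pow]
      congr 1
      apply Finset.prod_congr rfl
      intro t _
      rw [norm_pow, ← pow_mul, ← pow_mul, mul_comm]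
    rw [h3]
    field_simp
  · intro m hm m' hm' h
    apply mult_eq_of_moments (natCast_ne_zero hdp) hm hm'
    intro k hk1 hk2
    have := congrFun h ⟨k - 1, by omega⟩
    simp only [s] at this
    rwa [Nat.sub_add_cancel hk1] at this

lemma normExt_eq {d : ℕ} (hd : 1 ≤ d) (hdp : d < p) [DecidableEq F] (f : momentCurve F d → ℂ) :
    normExt F d (extensionOp p F d f) =
      (((Fintype.card F : ℝ) ^ d)⁻¹ * PP F d (fun t => ‖par f t‖ ^ 2)) ^ (1 / (2 * (d : ℝ))) := by
  unfold normExt
  rw [sum_pow_ext hd hdp f]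

lemma PP_nonneg {ι : Type*} [Fintype ι] [DecidableEq ι] (d : ℕ) {a : ι → ℝ} (ha : ∀ i, 0 ≤ a i) :
    0 ≤ PP ι d a := by
  unfold PP
  apply Finset.sum_nonneg
  intro m _
  have : 0 ≤ ∏ t, a t ^ m t := Finset.prod_nonneg fun i _ => pow_nonneg (ha i) _
  positivity

lemma rhs_eq {d : ℕ} (hd : 1 ≤ d) (hdp : d < p) [DecidableEq F] (f : momentCurve F d → ℂ) :
    sharpConst d (Fintype.card F) * normL2 F d f =
      (((Fintype.card F : ℝ) ^ d)⁻¹ *
        PP F d (fun _ => (∑ t, ‖par f t‖ ^ 2) / Fintype.card F)) ^ (1 / (2 * (d : ℝ))) := by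
  have hdq : d ≤ Fintype.card F := by
    have h1 : CharP F p := charP_of_injective_algebraMap (algebraMap (ZMod p) F).injective p
    obtain ⟨n, hn1, hn2⟩ := FiniteField.card F p
    rw [hn2]
    calc d ≤ p := hdp.le
      _ = p ^ 1 := (pow_one p).symm
      _ ≤ p ^ (n : ℕ) := Nat.pow_le_pow_right (Fact.out : p.Prime).pos n.pos
  have hd0 : (d : ℝ) ≠ 0 := by positivity
  unfold sharpConst normL2
  rw [← const_eq (ι := F) hdq]
  rw [sum_curve hd f (fun z _ => ‖z‖ ^ 2)]
  have h1 : ∑ m ∈ piAntidiag (univ : Finset F) d, (Nat.multinomial univ m : ℝ) ^ 2 =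
      PP F d (fun _ => 1) := by
    unfold PP; simp
  rw [h1, PP_const d ((∑ t, ‖par f t‖ ^ 2) / Fintype.card F)]
  set v : ℝ := (∑ t, ‖par f t‖ ^ 2) / Fintype.card F with hv
  have hv0 : 0 ≤ v := by rw [hv]; positivity
  have hP : 0 ≤ PP F d (fun _ => (1 : ℝ)) := PP_nonneg d (fun _ => zero_le_one)
  have h2 : (1 / (Fintype.card F : ℝ)) * ∑ t, ‖par f t‖ ^ 2 = v := by rw [hv]; ring
  have h3 : v ^ ((1 : ℝ) / 2) = (v ^ d) ^ (1 / (2 * (d : ℝ))) := by
    rw [← Real.rpow_natCast v d, ← Real.rpow_mul hv0]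
    congr 1
    field_simp
  rw [h2, h3, ← Real.mul_rpow (by positivity) (by positivity)]
  congr 1
  ring

/-- **The conjecture holds in all cases.** Let `d ≥ 2`, let `p > d` be a prime and let `F` be a
finite field of characteristic `p`.  (a) The inequality with constant `C_{d,q}` holds for every
`f`; (b) it has a maximizer; (c) a nonzero `f` is a maximizer iff `|f|` is constant on `Γ`. -/
theorem result (d p : ℕ) [Fact p.Prime] (F : Type u) [Field F] [Fintype F]
    [Algebra (ZMod p) F] (hd : 2 ≤ d) (hdp : d < p) :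
    (∀ f : momentCurve F d → ℂ,
      normExt F d (extensionOp p F d f) ≤ sharpConst d (Fintype.card F) * normL2 F d f) ∧
    (∃ f : momentCurve F d → ℂ, IsMaximizer p F d f) ∧
    (∀ f : momentCurve F d → ℂ, f ≠ 0 →
      (IsMaximizer p F d f ↔ ∃ c : ℝ, ∀ ξ, ‖f ξ‖ = c)) := by
  classical
  have hd1 : 1 ≤ d := by omega
  have hd0 : (0 : ℝ) < 1 / (2 * (d : ℝ)) := by positivity
  have hqd : 0 < ((Fintype.card F : ℝ) ^ d)⁻¹ := by
    have : 0 < (Fintype.card F : ℝ) := by exact_mod_cast Fintype.card_pos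
    positivity
  have key : ∀ f : momentCurve F d → ℂ, f ≠ 0 →
      (IsMaximizer p F d f ↔ ∃ c : ℝ, ∀ ξ, ‖f ξ‖ = c) := by
    intro f hf
    have hmax := PP_max hd (a := fun t => ‖par f t‖ ^ 2) (fun t => by positivity)
    have hpar : ∀ ξ : momentCurve F d, ∃ t, f ξ = par f t := by
      rintro ⟨ξ, hξ⟩
      obtain ⟨t, -, rfl⟩ := Finset.mem_image.1 hξ
      exact ⟨t, rfl⟩
    constructor
    · rintro ⟨-, h⟩
      rw [normExt_eq hd1 hdp, rhs_eq hd1 hdp] at h
      rw [Real.rpow_left_inj (mul_nonneg hqd.le (PP_nonneg d fun t => by positivity))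
        (mul_nonneg hqd.le (PP_nonneg d fun t => by positivity)) hd0.ne'] at h
      have h2 := hmax.2 (mul_left_cancel₀ hqd.ne' h)
      refine ⟨‖par f 0‖, fun ξ => ?_⟩
      obtain ⟨t, ht⟩ := hpar ξ
      rw [ht]
      have := h2 t 0
      exact (pow_left_inj₀ (norm_nonneg _) (norm_nonneg _) two_ne_zero).1 this
    · rintro ⟨c, hc⟩
      refine ⟨hf, ?_⟩
      rw [normExt_eq hd1 hdp, rhs_eq hd1 hdp]
      have h1 : (fun t => ‖par f t‖ ^ 2) = fun _ : F => c ^ 2 := by
        funext t
        have : ‖par f t‖ = c := hc _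
        rw [this]
      have h2 : ∑ t, ‖par f t‖ ^ 2 = Fintype.card F * c ^ 2 := by
        rw [h1]; simp
      have h3 : (Fintype.card F : ℝ) ≠ 0 := by
        exact_mod_cast Fintype.card_ne_zero
      rw [h2, h1, mul_div_cancel_left₀ _ h3]
  refine ⟨fun f => ?_, ?_, key⟩
  · rw [normExt_eq hd1 hdp, rhs_eq hd1 hdp]
    have hmax := (PP_max hd (a := fun t => ‖par f t‖ ^ 2) (fun t => by positivity)).1
    apply Real.rpow_le_rpow (mul_nonneg hqd.le (PP_nonneg d fun t => by positivity)) _ hd0.le
    exact mul_le_mul_of_nonneg_left hmax hqd.le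
  · have hne : (fun _ => 1 : momentCurve F d → ℂ) ≠ 0 := by
      intro h
      have h1 : momentPoint F d 0 ∈ momentCurve F d :=
        Finset.mem_image.2 ⟨0, mem_univ 0, rfl⟩
      have := congrFun h ⟨_, h1⟩
      simp at this
    exact ⟨_, (key _ hne).2 ⟨1, fun ξ => by simp⟩⟩

end main

end Pool.Agent.Results.MP_110370_an.SharpExtension
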